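import Pool.Agent.N436.DF.Stm2

/-!
# Project DF, part S_KLc: there is a unit that can be killed
-/

namespace Pool.Agent.N618.DF

open Finset
open Pool.Agent.N436.DF

theorem ff_eq {V : Type} [DecidableEq V] (P : Par) (H : Hub V) (θ : V → ℤ) (Y : Finset V) :
    FF (fun v => wt P H v - θ v) (ew P H) Y = F0 P H θ Y := by
  unfold FF F0 rho
  rw [Finset.sum_sub_distrib]
  ring

theorem klc (h : S_dlem) : S_KLc := by
  intro V _ P H T w θ s δ hS hδ hs
  by_contra hcon
  push Not at hcon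
  have hex : ∀ q : V, ∃ A : Finset V, q ∈ T → 1 ≤ H.m w q →
      A ⊆ T ∧ q ∈ A ∧ F0 P H θ A ≤ 2 * P.d := by
    intro q
    by_cases hq : q ∈ T
    · by_cases hm : 1 ≤ H.m w q
      · obtain ⟨A, h1, h2, h3⟩ := hcon q hq hm
        exact ⟨A, fun _ _ => ⟨h1, h2, h3⟩⟩
      · exact ⟨∅, fun _ h' => absurd h' hm⟩
    · exact ⟨∅, fun h' => absurd h' hq⟩
  choose A hA using hex
  have hd := P.hd
  have hb := P.hb
  have hab := P.hab
  have hDa := P.hDa
  have ha0 : 0 < P.a := by linarith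
  have htot := hS.tot
  have hδ1 := hS.hδ
  refine h V P.a P.b P.d δ (fun v => wt P H v - θ v) (fun v => H.m w v) (ew P H) T A hd
    (by linarith) hab hδ hS.hδb ?_ ?_ (fun v => hS.ok.m_nn w v) ?_ ?_ ?_ ?_ ?_
  · intro u v
    unfold ew
    rw [hS.ok.rsymm u v, hS.ok.msymm u v]
  · intro u v
    unfold ew
    have hm := hS.ok.m_nn u v
    rcases hS.ok.r01 u v with hr | hr
    · rw [hr]
      rcases hm.eq_or_lt with h0 | h0
      · left
        rw [← h0]
        ring
      · right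
        nlinarith
    · right
      rw [hr]
      nlinarith
  · intro Y hY
    rw [ff_eq]
    exact hS.nn Y hY
  · intro Y hY
    rw [ff_eq, ff_eq]
    exact hS.prop Y hY
  · rw [ff_eq]
    have h1 : F0 P H θ T = 2 * P.a * ∑ v ∈ T, H.m w v - 2 * P.b * (s + 1) - δ := by linarith
    rw [h1, hab]
    nlinarith
  · nlinarith
  · intro q hq hm
    obtain ⟨h1, h2, h3⟩ := hA q hq hm
    refine ⟨h2, h1, ?_⟩
    rw [ff_eq]
    exact h3

end Pool.Agent.N618.DF

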